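import Mathlib
import Pool.Agent.N361.LC.Main

set_option autoImplicit false

/-!
# Non-evasive balls that are not locally constructible, in every dimension at least four

The definitions `IsCx`, `realization`, `IsBall`, `IsFacet`, `AtMostTwo`, `SameFace`, `NonEvasive`
are in `Pool.Agent.H933R3.Defs`, the definitions `TreeStage`, `GlueStage`, `IsTreeLC` are in
`Pool.Agent.N361.LC.Defs` (same as in `Pool.Agent.Y364.E3.Tree`).
-/

namespace Pool.Agent.Results.MP_9638d9_co.NonEvasiveNotLC

open Pool.Agent.H933R3 Pool.Agent.N361.LC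

/-- For every `d ≥ 4` there is a non-evasive triangulated `d`-ball which is not locally
constructible. -/
theorem result (d : ℕ) (hd : 4 ≤ d) : ∃ K : Finset (Finset (Fin (d + 9))),
    IsCx K ∧ IsBall d K ∧ NonEvasive K ∧ ¬ IsTreeLC d K :=
  Pool.Agent.N361.LC.main d hd

end Pool.Agent.Results.MP_9638d9_co.NonEvasiveNotLC
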